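import Pool.Agent.Helper65.LD4.Pair
import Pool.Agent.Helper47.LD4.N2
import Pool.Agent.Helper17.LD4.Sys
import Pool.Agent.Helper14.LD4.PCA

/-!
# Project LD4, block PC: the pair correlations of the family (assembly)
-/

set_option autoImplicit false

namespace Pool.Agent.Helper65.LD4

open Set MeasureTheory Filter Topology
open Pool.Agent.Helper41.LD (av var haar DiscLe Dioph Kk)
open Pool.Agent.Helper41.LD2 (EqA)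
open Pool.Agent.Helper41.LD3 (Cst Us tm fr lamG lin fr_geo fr_pos fr_add tm_mono tm_spec tm_le tm_gt lt_tm base_gt)
open Pool.Agent.Helper41.LD4
open Pool.Agent.Helper47.LD4 (few4)
open Pool.Agent.Helper17.LD4 (sys_all sys_cls17 GG_Wd PP_nums)

/-- the correlation of two test functions at two times (helper14's block) -/
def CorrAll (τ : ℕ → ℝ) (ty : ℕ → ℕ × ℕ × ℕ) (g Q m Cq K : ℕ) (c : ℝ → ℝ) : Prop :=
  ∀ {Q₀ : ℕ} {ε ℓ : ℝ}, 0 ≤ ε → ε ≤ (1 / 2) ^ (12 * K) → 0 < ℓ → ∀ (a : ℝ) {s s' : ℕ}, s < g * Q → s' < g * Q →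
    ∀ {q q' : ℕ × ℕ × ℕ × ℕ}, q ∈ sysI (ty (s / Q)).2.1 K → q' ∈ sysI (ty (s' / Q)).2.1 K → ∀ {v u : ℕ}, v % Q = s % Q →
    u % Q = s' % Q → ((Q₀ : ℝ) + 1) * 2 ^ ((24 + 12 * Cq) * K) ≤ τ (s' / Q) ^ u * ℓ →
    (¬ (s / Q = s' / Q ∧ v ≡ u [MOD (ty (s' / Q)).1]) → (1 / 2 : ℝ) ^ (12 * K) < τ (s / Q) ^ v / τ (s' / Q) ^ u →
      τ (s / Q) ^ v / τ (s' / Q) ^ u < 2 ^ (12 * K) → (τ (s / Q) ^ v ≤ τ (s' / Q) ^ u ∧ EqA (τ (s' / Q) ^ u / τ (s / Q) ^ v) Q₀ ε) ∨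
        (τ (s' / Q) ^ u ≤ τ (s / Q) ^ v ∧ EqA (τ (s / Q) ^ v / τ (s' / Q) ^ u) Q₀ ε)) →
    |av (fun x => sysf (ty (s / Q)).2.1 q (τ (s / Q) ^ v * x + c (τ (s / Q) ^ v)) *
        sysf (ty (s' / Q)).2.1 q' (τ (s' / Q) ^ u * x + c (τ (s' / Q) ^ u))) a ℓ -
      (if s = s' ∧ v = u ∧ q = q' then sysv (ty (s / Q)).2.1 q else 0)| ≤ 3 * (m : ℝ) ^ 2 * (1 / 2) ^ (12 * K)

variable {κ : ℕ} {τ : ℕ → ℝ} {ty : ℕ → ℕ × ℕ × ℕ} {g Q R CF DF Cb m Cq G K : ℕ}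

/-- the numbers -/
private theorem num65 {z mr Nv e₁ e₂ N' Bq nr wC τt : ℝ} (hz : 4 ≤ z) (hm1 : 1 ≤ mr) (hmz : mr ≤ z) (hB : z ^ 12 ≤ Bq)
    (hN0 : 0 ≤ Nv) (hNv : Nv ≤ mr * z) (hN' : N' ≤ Nv * (2 * (1 / z ^ 12) * Bq) + 1) (he₁ : e₁ = 3 * mr ^ 2 * (1 / z ^ 12))
    (he₂ : e₂ ≤ mr * (1 / z ^ 24)) (hn0 : 0 ≤ nr) (hn : nr ≤ z ^ 2) (hw0 : 0 ≤ wC) (hw : wC ≤ z) (hτ : τt ≤ wC * (1 / z ^ 12)) :
    z ^ 2 * (2 * N' / Bq + e₁) + τt + (nr + wC) * e₂ ≤ 1 / z ^ 4 := by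
  have hz0 : 0 < z := by linarith
  have hB0 : 0 < Bq := lt_of_lt_of_le (by positivity) hB
  have h1 : N' / Bq ≤ (2 * mr * z + 1) * (1 / z ^ 12) := by
    rw [div_le_iff₀ hB0]
    have h2 : Nv * (2 * (1 / z ^ 12) * Bq) ≤ mr * z * (2 * (1 / z ^ 12) * Bq) := mul_le_mul_of_nonneg_right hNv (by positivity)
    have h3 : 1 ≤ 1 / z ^ 12 * Bq := by
      rw [one_div, inv_mul_eq_div, one_le_div (by positivity)]
      exact hB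
    calc N' ≤ mr * z * (2 * (1 / z ^ 12) * Bq) + 1 / z ^ 12 * Bq := by linarith
      _ = _ := by ring
  have h4 : 2 * N' / Bq ≤ (4 * mr * z + 2) * (1 / z ^ 12) := by
    calc 2 * N' / Bq = 2 * (N' / Bq) := by ring
      _ ≤ 2 * ((2 * mr * z + 1) * (1 / z ^ 12)) := by linarith
      _ = _ := by ring
  have h5 : z ^ 2 * (2 * N' / Bq + e₁) ≤ z ^ 2 * ((4 * mr * z + 2 + 3 * mr ^ 2) * (1 / z ^ 12)) := by
    refine mul_le_mul_of_nonneg_left ?_ (by positivity)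
    rw [he₁]
    linarith
  have h6 : (nr + wC) * e₂ ≤ (z ^ 2 + z) * (mr * (1 / z ^ 24)) := by
    have h7 : (nr + wC) * e₂ ≤ (nr + wC) * (mr * (1 / z ^ 24)) := mul_le_mul_of_nonneg_left he₂ (by linarith)
    have h8 : (nr + wC) * (mr * (1 / z ^ 24)) ≤ (z ^ 2 + z) * (mr * (1 / z ^ 24)) :=
      mul_le_mul_of_nonneg_right (by linarith) (by positivity)
    linarith
  have h9 : (z ^ 2 + z) * (mr * (1 / z ^ 24)) ≤ (z ^ 2 + z) * mr * (1 / z ^ 12) := by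
    have h10 : 1 / z ^ 24 ≤ 1 / z ^ 12 := one_div_le_one_div_of_le (by positivity) (pow_le_pow_right₀ (by linarith) (by norm_num))
    calc (z ^ 2 + z) * (mr * (1 / z ^ 24)) ≤ (z ^ 2 + z) * (mr * (1 / z ^ 12)) := by gcongr
      _ = _ := by ring
  have h11 : τt ≤ z * (1 / z ^ 12) := hτ.trans (mul_le_mul_of_nonneg_right hw (by positivity))
  have h12 : z ^ 2 * (4 * mr * z + 2 + 3 * mr ^ 2) + z + (z ^ 2 + z) * mr ≤ z ^ 8 := by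
    have h13 : 4 * mr * z + 2 + 3 * mr ^ 2 ≤ 4 * z * z + 2 + 3 * z ^ 2 := by
      have : mr ^ 2 ≤ z ^ 2 := pow_le_pow_left₀ (by linarith) hmz 2
      have : mr * z ≤ z * z := mul_le_mul_of_nonneg_right hmz hz0.le
      linarith
    have h14 : z ^ 2 * (4 * mr * z + 2 + 3 * mr ^ 2) ≤ z ^ 2 * (4 * z * z + 2 + 3 * z ^ 2) := mul_le_mul_of_nonneg_left h13 (by positivity)
    have h15 : (z ^ 2 + z) * mr ≤ (z ^ 2 + z) * z := mul_le_mul_of_nonneg_left hmz (by positivity)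
    have h16 : z ≤ z ^ 4 := le_self_pow₀ (by linarith) (by norm_num)
    have h17 : z ^ 2 ≤ z ^ 4 := pow_le_pow_right₀ (by linarith) (by norm_num)
    have h18 : z ^ 3 ≤ z ^ 4 := pow_le_pow_right₀ (by linarith) (by norm_num)
    have h19 : (256:ℝ) ≤ z ^ 4 := by
      calc (256:ℝ) = 4 ^ 4 := by norm_num
        _ ≤ z ^ 4 := pow_le_pow_left₀ (by norm_num) hz 4
    have h20 : z ^ 8 = z ^ 4 * z ^ 4 := by ring
    have h21 : 256 * z ^ 4 ≤ z ^ 4 * z ^ 4 := mul_le_mul_of_nonneg_right h19 (by positivity)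
    have e1 : z ^ 2 * (4 * z * z + 2 + 3 * z ^ 2) = 7 * z ^ 4 + 2 * z ^ 2 := by ring
    have e2 : (z ^ 2 + z) * z = z ^ 3 + z ^ 2 := by ring
    rw [e1] at h14
    rw [e2] at h15
    rw [h20]
    linarith
  have h22 : z ^ 2 * (2 * N' / Bq + e₁) + τt + (nr + wC) * e₂ ≤
      (z ^ 2 * (4 * mr * z + 2 + 3 * mr ^ 2) + z + (z ^ 2 + z) * mr) * (1 / z ^ 12) := by
    have e3 : (z ^ 2 * (4 * mr * z + 2 + 3 * mr ^ 2) + z + (z ^ 2 + z) * mr) * (1 / z ^ 12) =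
        z ^ 2 * ((4 * mr * z + 2 + 3 * mr ^ 2) * (1 / z ^ 12)) + z * (1 / z ^ 12) + (z ^ 2 + z) * mr * (1 / z ^ 12) := by ring
    rw [e3]
    linarith
  refine h22.trans ((mul_le_mul_of_nonneg_right h12 (by positivity)).trans (le_of_eq ?_))
  field_simp

/-- PC -/
theorem stage_PC4_of (H : Cst4 τ ty g Q R CF DF Cb m Cq G) (B : Big4 κ τ ty g Q R DF Cb m Cq G K) {c : ℝ → ℝ}
    (hcorr : CorrAll τ ty g Q m Cq K c)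
    {ℓst ℓ a : ℝ} (hℓ : 0 < ℓ) (hst : ℓ ≤ ℓst) (hst1 : ℓst ≤ 1)
    (hT : ∀ s < g * Q, tm τ Q s ℓ - tm τ Q s ℓst + (tm τ Q s (ℓ / 2 ^ (K ^ (2 * κ + 1))) - tm τ Q s ℓ) + R * K ≤ 2 ^ (2 * K)) :
    ∃ t : ℕ → ℕ, ∀ p ∈ PP ty g Q K, ∀ p' ∈ PP ty g Q K,
      |(∑ b ∈ Finset.range (2 ^ (K ^ (2 * κ + 1))), (M (GG τ ty c Q ℓst p) (a + b * (ℓ / (2 ^ (K ^ (2 * κ + 1)) : ℕ))) (ℓ / (2 ^ (K ^ (2 * κ + 1)) : ℕ)) -
          M (GG τ ty c Q ℓst p) a ℓ) * A (GG τ ty c Q ℓst p') (t p'.1) (a + b * (ℓ / (2 ^ (K ^ (2 * κ + 1)) : ℕ))) (ℓ / (2 ^ (K ^ (2 * κ + 1)) : ℕ))) / (2 ^ (K ^ (2 * κ + 1)) : ℕ) -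
        (if p = p' then sysv (ty (p.1 / Q)).2.1 p.2 else 0)| ≤ (1 / 2) ^ (4 * K) := by
  classical
  obtain ⟨Q₀, ε, hε0, hε, hTT⟩ := B.hTT
  have hQ := H.base.hQ
  have hK1 : 1 ≤ K := by have := B.hK2; omega
  obtain ⟨Λ, hΛ⟩ : ∃ Λ : ℕ, Λ = K ^ (2 * κ + 1) := ⟨_, rfl⟩
  rw [← hΛ] at hTT hT ⊢
  have hex : ∀ s : ℕ, ∃ u : ℕ, s < g * Q → u % Q = s % Q ∧
      ((Q₀ : ℝ) + 1) * 2 ^ ((24 + 12 * Cq) * K) ≤ τ (s / Q) ^ u * ℓ ∧ τ (s / Q) ^ u * (ℓ / 2 ^ Λ) ≤ 2 * (1 / 2) ^ (12 * K) ∧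
        ∀ h' < g, ∀ u' : ℕ, ¬ (h' = s / Q ∧ u' ≡ u [MOD (ty (s / Q)).1]) → (1 / 2 : ℝ) ^ (12 * K) < τ h' ^ u' / τ (s / Q) ^ u → τ h' ^ u' / τ (s / Q) ^ u < 2 ^ (12 * K) →
          (τ h' ^ u' ≤ τ (s / Q) ^ u ∧ EqA (τ (s / Q) ^ u / τ h' ^ u') Q₀ ε) ∨ (τ (s / Q) ^ u ≤ τ h' ^ u' ∧ EqA (τ h' ^ u' / τ (s / Q) ^ u) Q₀ ε) := by
    intro s
    by_cases hs : s < g * Q
    · obtain ⟨u, hu⟩ := hTT (s / Q) (Cst.idx_lt hs) (s % Q) (Nat.mod_lt s (by omega)) ℓ hℓ (hst.trans hst1)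
      exact ⟨u, fun _ => hu⟩
    · exact ⟨0, fun h => absurd h hs⟩
  choose u hu using hex
  refine ⟨fun s => u s / Q - tm τ Q s ℓst, ?_⟩
  rintro ⟨s, q⟩ hp ⟨s', q'⟩ hp'
  have hp1 := hp
  have hp1' := hp'
  unfold PP at hp1 hp1'
  rw [Finset.mem_sigma, Finset.mem_range] at hp1 hp1'
  obtain ⟨hs, hq⟩ := hp1
  obtain ⟨hs', hq'⟩ := hp1'
  replace hs : s < g * Q := hs
  replace hs' : s' < g * Q := hs'
  replace hq : q ∈ sysI (ty (s / Q)).2.1 K := hq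
  replace hq' : q' ∈ sysI (ty (s' / Q)).2.1 K := hq'
  obtain ⟨u1, u2, u3, u4⟩ := hu s' hs'
  have hτs := H.base.lt hs
  have hτs' := H.base.lt hs'
  -- the numbers
  obtain ⟨z, hz⟩ : ∃ z : ℝ, z = 2 ^ K := ⟨_, rfl⟩
  have hz4 : 4 ≤ z := by
    rw [hz]
    calc (4 : ℝ) = 2 ^ 2 := by norm_num
      _ ≤ 2 ^ K := pow_le_pow_right₀ (by norm_num) B.hK2
  have hz0 : 0 < z := by linarith
  have h12 : (1 / 2 : ℝ) ^ (12 * K) = 1 / z ^ 12 := by rw [hz, one_div_pow, ← pow_mul, mul_comm K 12]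
  have h4K : (1 / 2 : ℝ) ^ (4 * K) = 1 / z ^ 4 := by rw [hz, one_div_pow, ← pow_mul, mul_comm K 4]
  have h2K : (2 : ℝ) ^ (2 * K) = z ^ 2 := by rw [hz, ← pow_mul, mul_comm K 2]
  have hBr : (((2 ^ Λ : ℕ)) : ℝ) = 2 ^ Λ := by push_cast; rfl
  have hBz : z ^ 12 ≤ ((2 ^ Λ : ℕ) : ℝ) := by
    rw [hBr, hz, ← pow_mul, mul_comm K 12, hΛ]
    exact pow_le_pow_right₀ (by norm_num) B.hB
  have hB1 : 1 ≤ 2 ^ Λ := Nat.one_le_two_pow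
  have hKz : (K : ℝ) ≤ z := by
    rw [hz]
    exact_mod_cast (Nat.lt_two_pow_self (n := K)).le
  have hCbK : (Cb : ℝ) * (3 * (m : ℝ) ^ 2) ≤ K := by exact_mod_cast B.hCbK
  have hm1 : (1 : ℝ) ≤ m := by exact_mod_cast H.m1
  have hCb1 : (1 : ℝ) ≤ Cb := by exact_mod_cast H.base.hCb1
  have hmz : (m : ℝ) ≤ z := by
    have h1 : (m : ℝ) ≤ (m : ℝ) ^ 2 := le_self_pow₀ hm1 (by norm_num)
    have h2 : 1 * (3 * (m : ℝ) ^ 2) ≤ Cb * (3 * (m : ℝ) ^ 2) := mul_le_mul_of_nonneg_right hCb1 (by positivity)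
    have h3 : (0:ℝ) ≤ (m : ℝ) ^ 2 := by positivity
    linarith
  have hℓ2 : 0 < ℓ / 2 ^ Λ := by positivity
  have hℓ2le : ℓ / 2 ^ Λ ≤ ℓ := div_le_self hℓ.le (one_le_pow₀ (by norm_num))
  have hℓeq : ℓ / ((2 ^ Λ : ℕ) : ℝ) = ℓ / 2 ^ Λ := by rw [hBr]
  have m1 := tm_mono hQ hτs hℓ hst
  have m2 := tm_mono hQ hτs hℓ2 hℓ2le
  have m1' := tm_mono hQ hτs' hℓ hst
  have m2' := tm_mono hQ hτs' hℓ2 hℓ2le
  -- the frequency of the test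
  obtain ⟨f, hf⟩ : ∃ f : ℝ, f = τ (s' / Q) ^ u s' := ⟨_, rfl⟩
  have hf0 : 0 < f := by rw [hf]; exact pow_pos (by linarith) _
  have hfr : fr τ Q s' (u s' / Q) = f := by
    unfold fr
    rw [← u1, Nat.div_add_mod, hf]
  rw [← hf] at u2 u3
  have hz24 : z ^ 24 ≤ f * ℓ := by
    refine le_trans ?_ u2
    have h1 : (2:ℝ) ^ (24 * K) ≤ 2 ^ ((24 + 12 * Cq) * K) := pow_le_pow_right₀ (by norm_num) (Nat.mul_le_mul_right _ (by omega))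
    have h2 : z ^ 24 = 2 ^ (24 * K) := by rw [hz, ← pow_mul, mul_comm K 24]
    have h3 : (0 : ℝ) ≤ Q₀ := Nat.cast_nonneg _
    have h4 : (0:ℝ) ≤ 2 ^ ((24 + 12 * Cq) * K) := by positivity
    rw [h2]
    calc (2:ℝ) ^ (24 * K) ≤ 1 * 2 ^ ((24 + 12 * Cq) * K) := by linarith
      _ ≤ ((Q₀ : ℝ) + 1) * 2 ^ ((24 + 12 * Cq) * K) := mul_le_mul_of_nonneg_right (by linarith) h4
  have h1z24 : 1 ≤ z ^ 24 := one_le_pow₀ (by linarith)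
  have htm : tm τ Q s' ℓ ≤ u s' / Q := by
    refine tm_le ?_
    rw [hfr]
    exact h1z24.trans hz24
  have htst : tm τ Q s' ℓst ≤ u s' / Q := m1'.trans htm
  have htlt : u s' / Q < tm τ Q s' (ℓ / 2 ^ Λ) := by
    refine tm_gt hQ hτs' hℓ2 ?_
    rw [hfr]
    refine lt_of_le_of_lt u3 ?_
    rw [h12]
    have h1 : (4:ℝ) ^ 12 ≤ z ^ 12 := pow_le_pow_left₀ (by norm_num) hz4 12
    rw [mul_one_div, div_lt_one (by positivity)]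
    linarith
  have hT1 := hT s hs
  have hT1' := hT s' hs'
  -- the functionals
  have hw : Wd (GG τ ty c Q ℓst ⟨s, q⟩) (τ (s / Q) ^ Q) (3 * (m : ℝ) ^ 2 * sysv (ty (s / Q)).2.1 q) (tm τ Q s ℓ - tm τ Q s ℓst) a ℓ :=
    GG_Wd H c hK1 hℓ hst hp
  obtain ⟨L, hL⟩ : ∃ L : ℕ, L = tm τ Q s (ℓ / 2 ^ Λ) - tm τ Q s ℓ := ⟨_, rfl⟩
  have hw' : ∀ b : ℕ, b < 2 ^ Λ → Wd (GG τ ty c Q ℓst ⟨s, q⟩) (τ (s / Q) ^ Q) (3 * (m : ℝ) ^ 2 * sysv (ty (s / Q)).2.1 q)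
      (tm τ Q s ℓ - tm τ Q s ℓst + L) (a + b * (ℓ / (2 ^ Λ : ℕ))) (ℓ / (2 ^ Λ : ℕ)) := by
    intro b _
    rw [show tm τ Q s ℓ - tm τ Q s ℓst + L = tm τ Q s (ℓ / 2 ^ Λ) - tm τ Q s ℓst by omega, hℓeq]
    exact GG_Wd H c hK1 hℓ2 (hℓ2le.trans hst) hp
  have hSys := sys_cls17 H hK1 hs
  have hSys' := sys_cls17 H hK1 hs'
  have hFn' := hSys'.fn q' hq'
  have hsm' : (sysm (ty (s' / Q)).2.1 : ℝ) ≤ m := by exact_mod_cast H.hm _ (Cst.idx_lt hs')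
  have hv1 : sysv (ty (s / Q)).2.1 q ≤ 1 := hSys.v_hi q hq
  have hv1' : sysv (ty (s' / Q)).2.1 q' ≤ 1 := hSys'.v_hi q' hq'
  have hv0 : 0 ≤ sysv (ty (s / Q)).2.1 q := by
    refine le_trans ?_ (hSys.v_lo q hq)
    positivity
  have hv0' : 0 ≤ sysv (ty (s' / Q)).2.1 q' := by
    refine le_trans ?_ (hSys'.v_lo q' hq')
    positivity
  obtain ⟨N₀, hN₀⟩ : ∃ N₀ : ℕ, N₀ = sysN (ty (s' / Q)).2.1 K := ⟨_, rfl⟩
  have hN1 : 1 ≤ N₀ := by rw [hN₀]; exact hSys'.N1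
  have hN2 : (N₀ : ℝ) ≤ m * z := by
    have h1 : N₀ ≤ sysm (ty (s' / Q)).2.1 * 2 ^ K := by rw [hN₀]; exact hSys'.N2
    have h2 : (N₀ : ℝ) ≤ sysm (ty (s' / Q)).2.1 * 2 ^ K := by exact_mod_cast h1
    rw [hz]
    exact h2.trans (mul_le_mul_of_nonneg_right hsm' (by positivity))
  rw [← hN₀] at hFn'
  -- the test function
  obtain ⟨F, hF⟩ : ∃ F : ℝ → ℝ, F = fun x => sysf (ty (s' / Q)).2.1 q' (f * x + c f) := ⟨_, rfl⟩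
  have hGF : GG τ ty c Q ℓst ⟨s', q'⟩ (u s' / Q - tm τ Q s' ℓst) = F := by
    rw [hF]
    funext x
    show sysf (ty (s' / Q)).2.1 q' (fr τ Q s' (tm τ Q s' ℓst + (u s' / Q - tm τ Q s' ℓst)) * x +
      c (fr τ Q s' (tm τ Q s' ℓst + (u s' / Q - tm τ Q s' ℓst)))) = _
    rw [Nat.add_sub_cancel' htst, hfr]
  have hFm : Measurable F := by
    rw [hF]
    exact hFn'.meas.comp ((measurable_const_mul _).add_const _)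
  have hF1 : ∀ x, |F x| ≤ 1 := fun x => by rw [hF]; exact hFn'.bdd _
  have hfew := few4 hFn' hN1 (d := c f) (a := a) hf0 hℓ hB1
  -- the mean of the test function
  have he₂ : |av F a ℓ| ≤ m * (1 / z ^ 24) := by
    unfold av
    rw [hF]
    show |(∫ x in a..(a + ℓ), sysf (ty (s' / Q)).2.1 q' (f * x + c f)) / ℓ| ≤ _
    rw [intervalIntegral.integral_comp_mul_add (fun t => sysf (ty (s' / Q)).2.1 q' t) hf0.ne' (c f), smul_eq_mul, abs_div, abs_mul,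
      abs_of_pos (inv_pos.2 hf0), abs_of_pos hℓ]
    have h1 := hFn'.prim (f * a + c f) (f * (a + ℓ) + c f)
    have h2 : (sysm (ty (s' / Q)).2.1 : ℝ) * sysv (ty (s' / Q)).2.1 q' ≤ m := by
      calc (sysm (ty (s' / Q)).2.1 : ℝ) * sysv (ty (s' / Q)).2.1 q' ≤ m * 1 := mul_le_mul hsm' hv1' hv0' (by linarith)
        _ = m := mul_one _
    have h3 := h1.trans h2
    rw [div_le_iff₀ hℓ, inv_mul_le_iff₀ hf0]
    refine h3.trans ?_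
    have h4 : f * (m * (1 / z ^ 24) * ℓ) = m * ((f * ℓ) * (1 / z ^ 24)) := by ring
    rw [h4]
    refine le_mul_of_one_le_right (by linarith) ?_
    rw [mul_one_div, one_le_div (by positivity)]
    exact hz24
  -- the correlations
  obtain ⟨δ, hδ⟩ : ∃ δ : ℕ → ℝ, δ = fun j => if (s = s' ∧ q = q') ∧ j = u s' / Q - tm τ Q s' ℓst then sysv (ty (s / Q)).2.1 q else 0 := ⟨_, rfl⟩
  have hcor : ∀ j < 2 ^ (2 * K), |av (fun x => GG τ ty c Q ℓst ⟨s, q⟩ j x * F x) a ℓ - δ j| ≤ 3 * (m : ℝ) ^ 2 * (1 / z ^ 12) := by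
    intro j _
    have e1 : (Q * (tm τ Q s ℓst + j) + s % Q) % Q = s % Q := by rw [Nat.mul_add_mod, Nat.mod_mod]
    have h1 := hcorr (ε := ε) hε0 hε hℓ a hs hs' hq hq' (v := Q * (tm τ Q s ℓst + j) + s % Q) (u := u s') e1 u1
      (by rw [← hf]; exact u2) (fun h2 => u4 (s / Q) (Cst.idx_lt hs) _ h2)
    rw [h12] at h1
    have e2 : (fun x => GG τ ty c Q ℓst ⟨s, q⟩ j x * F x) = fun x => sysf (ty (s / Q)).2.1 q (τ (s / Q) ^ (Q * (tm τ Q s ℓst + j) + s % Q) * x +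
        c (τ (s / Q) ^ (Q * (tm τ Q s ℓst + j) + s % Q))) * sysf (ty (s' / Q)).2.1 q' (τ (s' / Q) ^ u s' * x + c (τ (s' / Q) ^ u s')) := by
      funext x
      rw [hF, ← hf]
      rfl
    have e3 : (s = s' ∧ Q * (tm τ Q s ℓst + j) + s % Q = u s' ∧ q = q') ↔ ((s = s' ∧ q = q') ∧ j = u s' / Q - tm τ Q s' ℓst) := by
      constructor
      · rintro ⟨h2, h3, h4⟩
        refine ⟨⟨h2, h4⟩, ?_⟩
        have h5 : (Q * (tm τ Q s ℓst + j) + s % Q) / Q = tm τ Q s ℓst + j := by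
          rw [Nat.mul_add_div (by omega), Nat.div_eq_of_lt (Nat.mod_lt s (by omega)), add_zero]
        rw [← h3, h5, h2]
        omega
      · rintro ⟨⟨h2, h4⟩, h3⟩
        refine ⟨h2, ?_, h4⟩
        subst h2
        rw [h3, Nat.add_sub_cancel' htst, ← u1, Nat.div_add_mod]
    rw [e2, hδ]
    show |_ - (if (s = s' ∧ q = q') ∧ j = u s' / Q - tm τ Q s' ℓst then sysv (ty (s / Q)).2.1 q else 0)| ≤ _
    rw [if_congr e3 rfl rfl] at h1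
    exact h1
  have hδs : ∑ j ∈ Finset.range (2 ^ (2 * K)), δ j = if (⟨s, q⟩ : Σ _ : ℕ, ℕ × ℕ × ℕ × ℕ) = ⟨s', q'⟩ then sysv (ty (s / Q)).2.1 q else 0 := by
    rw [hδ]
    by_cases h1 : s = s' ∧ q = q'
    · obtain ⟨h2, h3⟩ := h1
      subst h2
      subst h3
      rw [if_pos rfl]
      have h4 : u s / Q - tm τ Q s ℓst ∈ Finset.range (2 ^ (2 * K)) := by
        rw [Finset.mem_range]
        omega
      simp only [true_and, and_self]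
      rw [Finset.sum_ite_eq' (Finset.range (2 ^ (2 * K))) (u s / Q - tm τ Q s ℓst) (fun _ => sysv (ty (s / Q)).2.1 q), if_pos h4]
    · rw [if_neg (by
        intro h2
        apply h1
        simpa using h2)]
      refine Finset.sum_eq_zero fun j _ => ?_
      rw [if_neg (fun h2 => h1 h2.1)]
  -- the constants
  have hβ := base_gt hQ hτs
  have hCb : τ (s / Q) ^ Q / (τ (s / Q) ^ Q - 1) ≤ Cb := H.base.hCb _ (Cst.idx_lt hs)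
  have hβ0 : 0 ≤ τ (s / Q) ^ Q / (τ (s / Q) ^ Q - 1) := div_nonneg (by linarith) (by linarith)
  have hwC0 : 0 ≤ 3 * (m : ℝ) ^ 2 * sysv (ty (s / Q)).2.1 q * (τ (s / Q) ^ Q / (τ (s / Q) ^ Q - 1)) := by positivity
  have hwC : 3 * (m : ℝ) ^ 2 * sysv (ty (s / Q)).2.1 q * (τ (s / Q) ^ Q / (τ (s / Q) ^ Q - 1)) ≤ z := by
    calc 3 * (m : ℝ) ^ 2 * sysv (ty (s / Q)).2.1 q * (τ (s / Q) ^ Q / (τ (s / Q) ^ Q - 1)) ≤ 3 * (m : ℝ) ^ 2 * 1 * Cb := by gcongr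
      _ = Cb * (3 * (m : ℝ) ^ 2) := by ring
      _ ≤ z := hCbK.trans hKz
  have hβpow : (τ (s / Q) ^ Q)⁻¹ ^ (2 ^ (2 * K) - (tm τ Q s ℓ - tm τ Q s ℓst + L)) ≤ 1 / z ^ 12 := by
    have h1 : (τ (s / Q) ^ Q)⁻¹ ^ (2 ^ (2 * K) - (tm τ Q s ℓ - tm τ Q s ℓst + L)) ≤ (τ (s / Q) ^ Q)⁻¹ ^ (R * K) := by
      refine pow_le_pow_of_le_one (inv_nonneg.2 (by linarith)) (inv_le_one_of_one_le₀ hβ.le) ?_
      omega
    refine h1.trans ?_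
    have h2 : z ^ 12 ≤ (τ (s / Q) ^ Q) ^ (R * K) := by
      calc z ^ 12 = (2 ^ 12) ^ K := by rw [hz, ← pow_mul, ← pow_mul, mul_comm]
        _ ≤ ((τ (s / Q) ^ Q) ^ R) ^ K := pow_le_pow_left₀ (by positivity) (H.base.hR _ (Cst.idx_lt hs)) K
        _ = _ := (pow_mul _ _ _).symm
    rw [inv_pow, ← one_div]
    exact one_div_le_one_div_of_le (by positivity) h2
  have hnz : ((tm τ Q s ℓ - tm τ Q s ℓst : ℕ) : ℝ) ≤ z ^ 2 := by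
    rw [← h2K]
    have : tm τ Q s ℓ - tm τ Q s ℓst ≤ 2 ^ (2 * K) := by omega
    exact_mod_cast this
  have hpair := pair4 hw hB1 hw' hFm hF1 (N' := N₀ * (f * ℓ) + 1) (by rw [hF]; exact hfew) δ (m := 2 ^ (2 * K)) (by omega) hcor he₂
  have hN'B : (N₀ : ℝ) * (f * ℓ) + 1 ≤ N₀ * (2 * (1 / z ^ 12) * ((2 ^ Λ : ℕ) : ℝ)) + 1 := by
    have h1 : f * ℓ ≤ 2 * (1 / z ^ 12) * ((2 ^ Λ : ℕ) : ℝ) := by
      rw [h12, ← mul_div_assoc, div_le_iff₀ (by positivity)] at u3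
      rw [hBr]
      exact u3
    have h2 := mul_le_mul_of_nonneg_left h1 (Nat.cast_nonneg (α := ℝ) N₀)
    linarith
  have hnum := num65 (z := z) (mr := m) (Nv := N₀) (e₁ := 3 * (m : ℝ) ^ 2 * (1 / z ^ 12)) (e₂ := m * (1 / z ^ 24))
    (N' := N₀ * (f * ℓ) + 1) (Bq := ((2 ^ Λ : ℕ) : ℝ)) (nr := ((tm τ Q s ℓ - tm τ Q s ℓst : ℕ) : ℝ))
    (wC := 3 * (m : ℝ) ^ 2 * sysv (ty (s / Q)).2.1 q * (τ (s / Q) ^ Q / (τ (s / Q) ^ Q - 1)))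
    (τt := 3 * (m : ℝ) ^ 2 * sysv (ty (s / Q)).2.1 q * (τ (s / Q) ^ Q)⁻¹ ^ (2 ^ (2 * K) - (tm τ Q s ℓ - tm τ Q s ℓst + L)) *
      (τ (s / Q) ^ Q / (τ (s / Q) ^ Q - 1)))
    hz4 hm1 hmz hBz (Nat.cast_nonneg _) hN2 hN'B rfl le_rfl (Nat.cast_nonneg _) hnz hwC0 hwC (by
      have h1 := mul_le_mul_of_nonneg_left hβpow hwC0
      calc _ = 3 * (m : ℝ) ^ 2 * sysv (ty (s / Q)).2.1 q * (τ (s / Q) ^ Q / (τ (s / Q) ^ Q - 1)) *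
            (τ (s / Q) ^ Q)⁻¹ ^ (2 ^ (2 * K) - (tm τ Q s ℓ - tm τ Q s ℓst + L)) := by ring
        _ ≤ _ := h1)
  rw [hδs] at hpair
  rw [h4K]
  show |(∑ b ∈ Finset.range (2 ^ Λ), (M (GG τ ty c Q ℓst ⟨s, q⟩) (a + b * (ℓ / (2 ^ Λ : ℕ))) (ℓ / (2 ^ Λ : ℕ)) -
      M (GG τ ty c Q ℓst ⟨s, q⟩) a ℓ) * av (GG τ ty c Q ℓst ⟨s', q'⟩ (u s' / Q - tm τ Q s' ℓst)) (a + b * (ℓ / (2 ^ Λ : ℕ))) (ℓ / (2 ^ Λ : ℕ))) / (2 ^ Λ : ℕ) - _| ≤ _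
  rw [hGF]
  refine hpair.trans ?_
  have e5 : ((2 ^ (2 * K) : ℕ) : ℝ) = z ^ 2 := by rw [← h2K]; push_cast; rfl
  rw [e5]
  exact hnum

/-- PC: the pair correlations of the family -/
theorem stage_PC4 (H : Cst4 τ ty g Q R CF DF Cb m Cq G) (B : Big4 κ τ ty g Q R DF Cb m Cq G K) {c : ℝ → ℝ} (hc : ∀ y, RatPow y → c y = 0)
    {ℓst ℓ a : ℝ} (hℓ : 0 < ℓ) (hst : ℓ ≤ ℓst) (hst1 : ℓst ≤ 1)
    (hT : ∀ s < g * Q, tm τ Q s ℓ - tm τ Q s ℓst + (tm τ Q s (ℓ / 2 ^ (K ^ (2 * κ + 1))) - tm τ Q s ℓ) + R * K ≤ 2 ^ (2 * K)) :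
    ∃ t : ℕ → ℕ, ∀ p ∈ PP ty g Q K, ∀ p' ∈ PP ty g Q K,
      |(∑ b ∈ Finset.range (2 ^ (K ^ (2 * κ + 1))), (M (GG τ ty c Q ℓst p) (a + b * (ℓ / (2 ^ (K ^ (2 * κ + 1)) : ℕ))) (ℓ / (2 ^ (K ^ (2 * κ + 1)) : ℕ)) -
          M (GG τ ty c Q ℓst p) a ℓ) * A (GG τ ty c Q ℓst p') (t p'.1) (a + b * (ℓ / (2 ^ (K ^ (2 * κ + 1)) : ℕ))) (ℓ / (2 ^ (K ^ (2 * κ + 1)) : ℕ))) / (2 ^ (K ^ (2 * κ + 1)) : ℕ) -
        (if p = p' then sysv (ty (p.1 / Q)).2.1 p.2 else 0)| ≤ (1 / 2) ^ (4 * K) := by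
  have hK1 : 1 ≤ K := by have := B.hK2; omega
  refine stage_PC4_of H B ?_ hℓ hst hst1 hT
  intro Q₀ ε ℓ' hε0 hε hℓ' a' s s' hs hs' q q' hq hq' v u hv hu hu1 hnear
  exact Pool.Agent.Helper14.LD4.corr_all H hK1 hc hε0 hε hℓ' a' hs hs' hq hq' hv hu hu1 hnear

end Pool.Agent.Helper65.LD4
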