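import Mathlib

/-!
# LD4: pair correlations with a rational ratio of the frequencies

`F` has mean zero over the first `p`-digit; then `F (s x + c)` and `G (s (p/q)^d x + c')` are orthogonal over each period
`q^d / s`.
-/

set_option autoImplicit false

namespace Pool.Agent.Helper65.LD4

open Set MeasureTheory

/-- a bounded periodic function with mean zero: the integral over any interval is at most one period -/
theorem int_periodic {h : ℝ → ℝ} {P : ℝ} (hP : 0 < P) (hper : Function.Periodic h P) (hm : Measurable h)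
    (h1 : ∀ x, |h x| ≤ 1) (h0 : ∫ x in (0:ℝ)..P, h x = 0) (a : ℝ) {ℓ : ℝ} (hℓ : 0 ≤ ℓ) :
    |∫ x in a..(a + ℓ), h x| ≤ P := by
  have hii : ∀ u v : ℝ, IntervalIntegrable h volume u v := fun u v => by
    refine (intervalIntegrable_const (c := (1:ℝ)) (μ := volume) (a := u) (b := v)).mono_fun' hm.aestronglyMeasurable ?_
    exact Filter.Eventually.of_forall fun x => h1 x
  obtain ⟨n, hn⟩ : ∃ n : ℕ, n = ⌊ℓ / P⌋₊ := ⟨_, rfl⟩
  have h2 : (n:ℝ) ≤ ℓ / P := by rw [hn]; exact Nat.floor_le (by positivity)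
  have h3 : ℓ / P < n + 1 := by rw [hn]; exact Nat.lt_floor_add_one _
  rw [le_div_iff₀ hP] at h2
  rw [div_lt_iff₀ hP] at h3
  have h4 : ∫ x in a..(a + n * P), h x = 0 := by
    have h5 := hper.intervalIntegral_add_eq (t := a) (s := 0)
    have h6 : ∀ m : ℕ, ∫ x in a..(a + m * P), h x = 0 := by
      intro m
      induction m with
      | zero => simp
      | succ m ih =>
        rw [← intervalIntegral.integral_add_adjacent_intervals (hii a (a + m * P)) (hii _ _), ih, zero_add]
        have e : a + ((m + 1 : ℕ) : ℝ) * P = (a + m * P) + P := by push_cast; ring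
        rw [e, hper.intervalIntegral_add_eq (a + m * P) 0, zero_add, h0]
    exact h6 n
  rw [← intervalIntegral.integral_add_adjacent_intervals (hii a (a + n * P)) (hii _ _), h4, zero_add]
  have h5 := intervalIntegral.norm_integral_le_of_norm_le_const (a := a + n * P) (b := a + ℓ) (C := 1) (f := h)
    (fun x _ => by rw [Real.norm_eq_abs]; exact h1 x)
  rw [Real.norm_eq_abs, one_mul] at h5
  refine h5.trans ?_
  rw [abs_of_nonneg (by linarith)]
  linarith

/-- the mean over the common period -/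
theorem mean_rat {p q d : ℕ} (hp : 1 ≤ p) (hpq : Nat.Coprime p q) (hd : 1 ≤ d) {F G : ℝ → ℝ}
    (hF : Measurable F) (hG : Measurable G) (hF1 : ∀ x, |F x| ≤ 1) (hG1 : ∀ x, |G x| ≤ 1)
    (hFp : Function.Periodic F 1) (hGp : Function.Periodic G 1)
    (hF0 : ∀ y, ∑ j ∈ Finset.range p, F (y + j / p) = 0) (c c' : ℝ) :
    ∫ z in (0:ℝ)..1, F (q ^ d * z + c) * G (p ^ d * z + c') = 0 := by
  obtain ⟨H, hH⟩ : ∃ H : ℝ → ℝ, H = fun z => F (q ^ d * z + c) * G (p ^ d * z + c') := ⟨_, rfl⟩
  have hp0 : (0:ℝ) < p := by exact_mod_cast hp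
  have hFn : ∀ (n : ℕ) (x : ℝ), F (x + n) = F x := fun n x => by
    have := hFp.nat_mul n x
    rwa [mul_one] at this
  have hGn : ∀ (n : ℕ) (x : ℝ), G (x + n) = G x := fun n x => by
    have := hGp.nat_mul n x
    rwa [mul_one] at this
  have hHper : Function.Periodic H 1 := by
    intro z
    rw [hH]
    show F (q ^ d * (z + 1) + c) * G (p ^ d * (z + 1) + c') = F (q ^ d * z + c) * G (p ^ d * z + c')
    have e1 : (q:ℝ) ^ d * (z + 1) + c = (q ^ d * z + c) + ((q ^ d : ℕ) : ℝ) := by push_cast; ring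
    have e2 : (p:ℝ) ^ d * (z + 1) + c' = (p ^ d * z + c') + ((p ^ d : ℕ) : ℝ) := by push_cast; ring
    rw [e1, e2, hFn, hGn]
  have hHm : Measurable H := by
    rw [hH]
    exact (hF.comp ((measurable_const_mul _).add_const c)).mul (hG.comp ((measurable_const_mul _).add_const c'))
  have hH1 : ∀ z, |H z| ≤ 1 := by
    intro z
    rw [hH]
    show |F (q ^ d * z + c) * G (p ^ d * z + c')| ≤ 1
    rw [abs_mul]
    exact mul_le_one₀ (hF1 _) (abs_nonneg _) (hG1 _)
  have hii : ∀ u v : ℝ, IntervalIntegrable H volume u v := fun u v => by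
    refine (intervalIntegrable_const (c := (1:ℝ)) (μ := volume) (a := u) (b := v)).mono_fun' hHm.aestronglyMeasurable ?_
    exact Filter.Eventually.of_forall fun x => hH1 x
  -- translate by `j / p`
  have h1 : ∀ j : ℕ, ∫ z in (0:ℝ)..1, H (z + j / p) = ∫ z in (0:ℝ)..1, H z := by
    intro j
    rw [intervalIntegral.integral_comp_add_right (fun z => H z), zero_add, add_comm (1:ℝ)]
    have := hHper.intervalIntegral_add_eq ((j:ℝ) / p) 0
    rw [zero_add] at this
    exact this
  -- the sum over `j`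
  have h2 : ∀ z : ℝ, ∑ j ∈ Finset.range p, H (z + j / p) = 0 := by
    intro z
    have e1 : ∀ j : ℕ, G (p ^ d * (z + j / p) + c') = G (p ^ d * z + c') := by
      intro j
      have e : (p:ℝ) ^ d * (z + j / p) + c' = (p ^ d * z + c') + ((p ^ (d - 1) * j : ℕ) : ℝ) := by
        have e3 : (p:ℝ) ^ d = p ^ (d - 1) * p := by
          rw [← pow_succ]
          congr 1
          omega
        push_cast
        rw [e3]
        field_simp
        ring
      rw [e, hGn]
    have e2 : ∑ j ∈ Finset.range p, F (q ^ d * (z + j / p) + c) = 0 := by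
      have e3 : ∀ j ∈ Finset.range p, F (q ^ d * (z + j / p) + c) = F ((q ^ d * z + c) + ((q ^ d * j % p : ℕ) : ℝ) / p) := by
        intro j _
        have e4 : (q:ℝ) ^ d * (z + j / p) + c =
            ((q ^ d * z + c) + ((q ^ d * j % p : ℕ) : ℝ) / p) + ((q ^ d * j / p : ℕ) : ℝ) := by
          have e5 : ((q ^ d * j : ℕ) : ℝ) = p * ((q ^ d * j / p : ℕ) : ℝ) + ((q ^ d * j % p : ℕ) : ℝ) := by
            exact_mod_cast (Nat.div_add_mod (q ^ d * j) p).symm
          have e6 : (q:ℝ) ^ d * (j / p) = ((q ^ d * j / p : ℕ) : ℝ) + ((q ^ d * j % p : ℕ) : ℝ) / p := by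
            have e7 : (q:ℝ) ^ d * j = ((q ^ d * j : ℕ) : ℝ) := by push_cast; ring
            rw [← mul_div_assoc, e7, e5]
            field_simp
          rw [mul_add, e6]
          ring
        rw [e4, hFn]
      rw [Finset.sum_congr rfl e3]
      have e8 : ∑ j ∈ Finset.range p, F ((q ^ d * z + c) + ((q ^ d * j % p : ℕ) : ℝ) / p) =
          ∑ j ∈ Finset.range p, F ((q ^ d * z + c) + (j : ℝ) / p) := by
        refine Finset.sum_bij (fun j _ => q ^ d * j % p) (fun j _ => Finset.mem_range.2 (Nat.mod_lt _ hp)) ?_ ?_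
          (fun j _ => rfl)
        · intro j hj j' hj' h
          rw [Finset.mem_range] at hj hj'
          have hc : Nat.Coprime p (q ^ d) := Nat.Coprime.pow_right d hpq
          have h9 : j ≡ j' [MOD p] := Nat.ModEq.cancel_left_of_coprime (c := q ^ d) hc h
          exact Nat.ModEq.eq_of_lt_of_lt h9 hj hj'
        · intro i hi
          have hc : Nat.Coprime (q ^ d) p := (Nat.Coprime.pow_right d hpq).symm
          have hinj : Set.InjOn (fun j => q ^ d * j % p) (Finset.range p : Set ℕ) := by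
            intro j hj j' hj' h
            rw [Finset.coe_range, mem_Iio] at hj hj'
            have h9 : j ≡ j' [MOD p] := Nat.ModEq.cancel_left_of_coprime (c := q ^ d) hc.symm h
            exact Nat.ModEq.eq_of_lt_of_lt h9 hj hj'
          have hmaps : ∀ j ∈ Finset.range p, q ^ d * j % p ∈ Finset.range p :=
            fun j _ => Finset.mem_range.2 (Nat.mod_lt _ hp)
          obtain ⟨j, hj, hj2⟩ := Finset.surj_on_of_inj_on_of_card_le (fun j _ => q ^ d * j % p)
            (fun j hj => hmaps j hj) (fun j j' hj hj' h => hinj (by simpa using hj) (by simpa using hj') h)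
            le_rfl i hi
          exact ⟨j, hj, hj2.symm⟩
      rw [e8]
      exact hF0 _
    rw [hH]
    show ∑ j ∈ Finset.range p, F (q ^ d * (z + j / p) + c) * G (p ^ d * (z + j / p) + c') = 0
    rw [Finset.sum_congr rfl (fun j _ => by rw [e1 j]), ← Finset.sum_mul, e2, zero_mul]
  have h3 : (p:ℝ) * ∫ z in (0:ℝ)..1, H z = 0 := by
    calc (p:ℝ) * ∫ z in (0:ℝ)..1, H z = ∑ j ∈ Finset.range p, ∫ z in (0:ℝ)..1, H z := by
          rw [Finset.sum_const, Finset.card_range, nsmul_eq_mul]
      _ = ∑ j ∈ Finset.range p, ∫ z in (0:ℝ)..1, H (z + j / p) := Finset.sum_congr rfl fun j _ => (h1 j).symm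
      _ = ∫ z in (0:ℝ)..1, ∑ j ∈ Finset.range p, H (z + j / p) := by
          rw [intervalIntegral.integral_finsetSum]
          intro j _
          have h5 := (hii (0 + (j:ℝ) / p) (1 + (j:ℝ) / p)).comp_add_right ((j:ℝ) / p)
          simpa using h5
      _ = 0 := by simp [h2]
  have h4 := (mul_eq_zero.1 h3).resolve_left hp0.ne'
  rw [hH] at h4
  exact h4

/-- pair correlation with a rational ratio -/
theorem pair_rat {p q d : ℕ} (hp : 1 ≤ p) (hq : 1 ≤ q) (hpq : Nat.Coprime p q) (hd : 1 ≤ d) {F G : ℝ → ℝ}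
    (hF : Measurable F) (hG : Measurable G) (hF1 : ∀ x, |F x| ≤ 1) (hG1 : ∀ x, |G x| ≤ 1)
    (hFp : Function.Periodic F 1) (hGp : Function.Periodic G 1)
    (hF0 : ∀ y, ∑ j ∈ Finset.range p, F (y + j / p) = 0) {s : ℝ} (hs : 0 < s) (c c' a : ℝ) {ℓ : ℝ} (hℓ : 0 ≤ ℓ) :
    |∫ x in a..(a + ℓ), F (s * x + c) * G (s * (p / q) ^ d * x + c')| ≤ q ^ d / s := by
  have hp0 : (0:ℝ) < p := by exact_mod_cast hp
  have hq0 : (0:ℝ) < q := by exact_mod_cast hq
  obtain ⟨P, hP⟩ : ∃ P : ℝ, P = q ^ d / s := ⟨_, rfl⟩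
  have hP0 : 0 < P := by rw [hP]; positivity
  rw [← hP]
  have e1 : ∀ x : ℝ, F (s * x + c) * G (s * (p / q) ^ d * x + c') =
      (fun z => F (q ^ d * z + c) * G (p ^ d * z + c')) (x / P) := by
    intro x
    show F (s * x + c) * G (s * (p / q) ^ d * x + c') = F (q ^ d * (x / P) + c) * G (p ^ d * (x / P) + c')
    have h1 : (q:ℝ) ^ d * (x / P) = s * x := by rw [hP]; field_simp
    have h2 : (p:ℝ) ^ d * (x / P) = s * (p / q) ^ d * x := by rw [hP, div_pow]; field_simp
    rw [h1, h2]
  have hFn : ∀ (n : ℕ) (x : ℝ), F (x + n) = F x := fun n x => by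
    have := hFp.nat_mul n x
    rwa [mul_one] at this
  have hGn : ∀ (n : ℕ) (x : ℝ), G (x + n) = G x := fun n x => by
    have := hGp.nat_mul n x
    rwa [mul_one] at this
  refine int_periodic hP0 ?_ ?_ ?_ ?_ a hℓ
  · intro x
    show F (s * (x + P) + c) * G (s * (p / q) ^ d * (x + P) + c') = F (s * x + c) * G (s * (p / q) ^ d * x + c')
    have e2 : s * (x + P) + c = (s * x + c) + ((q ^ d : ℕ) : ℝ) := by
      push_cast
      rw [hP]
      field_simp
      ring
    have e3 : s * (p / q) ^ d * (x + P) + c' = (s * (p / q) ^ d * x + c') + ((p ^ d : ℕ) : ℝ) := by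
      push_cast
      rw [hP, div_pow]
      field_simp
      ring
    rw [e2, e3, hFn, hGn]
  · exact (hF.comp ((measurable_const_mul _).add_const c)).mul (hG.comp ((measurable_const_mul _).add_const c'))
  · intro x
    rw [abs_mul]
    exact mul_le_one₀ (hF1 _) (abs_nonneg _) (hG1 _)
  · simp_rw [e1]
    rw [intervalIntegral.integral_comp_div (fun z => F (q ^ d * z + c) * G (p ^ d * z + c')) hP0.ne', zero_div,
      div_self hP0.ne', mean_rat hp hpq hd hF hG hF1 hG1 hFp hGp hF0 c c', smul_zero]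

end Pool.Agent.Helper65.LD4
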